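import Pool.Agent.Helper59.BL.Ideal1

/-! # Ideals of a Bratteli system: sums, invariance, compression -/

set_option autoImplicit false
set_option linter.unusedSectionVars false

open scoped Matrix

namespace Helper19.BL

namespace Brat

variable {V0 : Type} [Fintype V0] [DecidableEq V0] {T : V0 → V0 → ℕ}
  {A : Type*} [CStarAlgebra A] (B : Brat V0 T A)

/-! ### sums of ideals -/

/-- `J` of a finite union is the sum of the ideals. -/
lemma J_iUnion {ι : Type*} [Fintype ι] [DecidableEq ι] {W : ι → Set V0} (hW : ∀ i, Her T (W i))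
    {x : A} (hx : x ∈ B.J (⋃ i, W i)) : ∃ f : ι → A, (∀ i, f i ∈ B.J (W i)) ∧ x = ∑ i, f i := by
  classical
  have hx' : x ∈ closure (((⨆ n, B.Lv n (⋃ i, W i)).toAddSubgroup : AddSubgroup A) : Set A) := hx
  obtain ⟨v, hv1, hv2, -, hv3⟩ := controlled_sum_of_mem_closure hx'
    (b := fun n => (1 / 2 : ℝ) ^ n) (fun n => by positivity)
  -- choose a label for every vertex of the union
  by_cases hne : Nonempty ι
  swap
  · have he : (⋃ i, W i) = ∅ := by
      rw [Set.iUnion_eq_empty]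
      intro i; exact absurd ⟨i⟩ hne
    rw [he, B.J_empty] at hx
    have : IsEmpty ι := not_nonempty_iff.1 hne
    exact ⟨fun _ => 0, fun i => Submodule.zero_mem _, by
      rw [(Submodule.mem_bot ℂ).1 hx]; simp⟩
  obtain ⟨c, hc⟩ : ∃ c : V0 → ι, ∀ w ∈ (⋃ i, W i), w ∈ W (c w) := by
    have : ∀ w : V0, ∃ i : ι, w ∈ (⋃ i, W i) → w ∈ W i := by
      intro w
      by_cases h : w ∈ (⋃ i, W i)
      · obtain ⟨i, hi⟩ := Set.mem_iUnion.1 h
        exact ⟨i, fun _ => hi⟩
      · exact ⟨Classical.arbitrary ι, fun h' => absurd h' h⟩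
    choose c hc using this
    exact ⟨c, hc⟩
  set S : ι → Set V0 := fun i => {w | w ∈ (⋃ i, W i) ∧ c w = i} with hS
  have hSW : ∀ i, S i ⊆ W i := by
    rintro i w ⟨h1, rfl⟩
    exact hc w h1
  have hlev : ∀ k, ∃ n, v k ∈ B.Lv n (⋃ i, W i) := by
    intro k
    have h : v k ∈ ((⨆ n, B.Lv n (⋃ i, W i) : Submodule ℂ A) : Set A) := hv2 k
    rw [B.coe_iSup_Lv (her_iUnion hW)] at h
    exact h
  choose lev hlev using hlev
  -- the sum of the partial units
  have hun : ∀ n, ∑ i, B.un n (S i) = B.un n (⋃ i, W i) := by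
    intro n
    unfold un
    rw [Finset.sum_comm]
    refine Finset.sum_congr rfl fun w _ => ?_
    by_cases h : w ∈ (⋃ i, W i)
    · rw [if_pos h, Finset.sum_eq_single (c w)]
      · rw [if_pos]
        exact ⟨h, rfl⟩
      · intro i _ hi
        rw [if_neg]
        rintro ⟨_, h2⟩
        exact hi h2.symm
      · intro h; exact absurd (Finset.mem_univ _) h
    · rw [if_neg h]
      refine Finset.sum_eq_zero fun i _ => ?_
      rw [if_neg]
      rintro ⟨h1, _⟩
      exact h h1
  let g : ι → ℕ → A := fun i k => B.un (lev k) (S i) * v k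
  have hg1 : ∀ k, ∑ i, g i k = v k := by
    intro k
    change ∑ i, B.un (lev k) (S i) * v k = v k
    rw [← Finset.sum_mul, hun, B.un_mul _ le_rfl (hlev k)]
  have hg2 : ∀ i k, g i k ∈ B.J (W i) := by
    intro i k
    have h1 : g i k ∈ B.Lv (lev k) (S i ∩ ⋃ i, W i) :=
      B.Lv_mul _ (B.un_mem _ _) (hlev k)
    exact B.Lv_le_J _ _ (B.Lv_mono_set _ (fun w hw => hSW i hw.1) h1)
  have hg3 : ∀ i k, 0 < k → ‖g i k‖ ≤ (1 / 2 : ℝ) ^ k := by
    intro i k hk
    calc ‖g i k‖ ≤ ‖B.un (lev k) (S i)‖ * ‖v k‖ := norm_mul_le _ _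
      _ ≤ 1 * ‖v k‖ := by gcongr; exact B.norm_un_le _ _
      _ ≤ (1 / 2 : ℝ) ^ k := by rw [one_mul]; exact (hv3 k hk).le
  have hsum : ∀ i, Summable (g i) := by
    intro i
    rw [← summable_nat_add_iff 1]
    refine Summable.of_norm_bounded (g := fun k => (1 / 2 : ℝ) ^ (k + 1)) ?_ ?_
    · exact (summable_nat_add_iff 1).2 (summable_geometric_of_lt_one (by norm_num) (by norm_num))
    · intro k
      exact hg3 i (k + 1) (Nat.succ_pos k)
  refine ⟨fun i => ∑' k, g i k, ?_, ?_⟩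
  · intro i
    refine (B.J_isClosed (W i)).mem_of_tendsto (hsum i).hasSum.tendsto_sum_nat
      (Filter.Eventually.of_forall fun n => ?_)
    exact Submodule.sum_mem _ fun k _ => hg2 i k
  · have h1 : Filter.Tendsto (fun n => ∑ k ∈ Finset.range (n + 1), ∑ i, g i k) Filter.atTop
        (nhds (∑ i, ∑' k, g i k)) := by
      have h2 : Filter.Tendsto (fun n => ∑ i, ∑ k ∈ Finset.range n, g i k) Filter.atTop
          (nhds (∑ i, ∑' k, g i k)) :=
        tendsto_finsetSum _ fun i _ => (hsum i).hasSum.tendsto_sum_nat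
      have h3 := h2.comp (Filter.tendsto_add_atTop_nat 1)
      refine h3.congr fun n => ?_
      exact Finset.sum_comm
    simp only [hg1] at h1
    exact tendsto_nhds_unique hv1 h1

lemma J_union {W W' : Set V0} (hW : Her T W) (hW' : Her T W')
    {x : A} (hx : x ∈ B.J (W ∪ W')) : ∃ y ∈ B.J W, ∃ z ∈ B.J W', x = y + z := by
  have h1 : (⋃ b : Bool, (if b then W else W')) = W ∪ W' := by
    ext v
    simp [Set.mem_iUnion, or_comm]
  have h2 : ∀ b : Bool, Her T (if b then W else W') := by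
    intro b; cases b
    · exact hW'
    · exact hW
  rw [← h1] at hx
  obtain ⟨f, hf1, hf2⟩ := B.J_iUnion h2 hx
  refine ⟨f true, by simpa using hf1 true, f false, by simpa using hf1 false, ?_⟩
  rw [hf2]
  simp

/-! ### classes of projections and ideals -/

variable {ι κ : Type*} [Fintype ι] [Fintype κ]

/-- Murray-von Neumann equivalence preserves membership in an ideal. -/
lemma mem_J_of_mvN {W : Set V0} (hW : Her T W) {p : Matrix ι ι A} {q : Matrix κ κ A}
    (hp : IsPj p) (hq : IsPj q) (h : MvN p q) (hqJ : ∀ i j, q i j ∈ B.J W) (i j : ι) :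
    p i j ∈ B.J W := by
  obtain ⟨v, h1, h2, -, h4⟩ := h.nice hp hq
  have hv : ∀ a b, v a b ∈ B.J W := by
    intro a b
    rw [← h4, Matrix.mul_apply]
    exact Submodule.sum_mem _ fun c _ => B.J_mul_right hW _ (hqJ a c)
  rw [← h1, Matrix.mul_apply]
  exact Submodule.sum_mem _ fun c _ => B.J_mul_left hW _ (hv c j)

/-- classes of projections over the ideal -/
noncomputable def VJ (W : Set V0) (_hW : Her T W) : AddSubmonoid (V A) where
  carrier := {x | ∃ (n : ℕ) (p : Matrix (Fin n) (Fin n) A) (hp : IsPj p),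
    (∀ i j, p i j ∈ B.J W) ∧ x = cls p hp}
  zero_mem' := ⟨0, 0, IsPj.zero, fun i => i.elim0, rfl⟩
  add_mem' := by
    rintro x y ⟨n, p, hp, h1, rfl⟩ ⟨m, q, hq, h2, rfl⟩
    refine ⟨n + m, (Matrix.fromBlocks p 0 0 q).submatrix finSumFinEquiv.symm finSumFinEquiv.symm,
      (hp.blocks hq).submatrix _, ?_, ?_⟩
    · intro i j
      rw [Matrix.submatrix_apply]
      rcases finSumFinEquiv.symm i with i | i <;> rcases finSumFinEquiv.symm j with j | j
      · exact h1 i j
      · exact Submodule.zero_mem _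
      · exact Submodule.zero_mem _
      · exact h2 i j
    · rw [cls_add_cls, cls_eq_iff]
      exact MvN.submatrix (hp.blocks hq) _

lemma cls_mem_VJ {W : Set V0} (hW : Her T W) {p : Matrix ι ι A} (hp : IsPj p) :
    cls p hp ∈ B.VJ W hW ↔ ∀ i j, p i j ∈ B.J W := by
  constructor
  · rintro ⟨n, q, hq, h1, h2⟩
    rw [cls_eq_iff] at h2
    exact fun i j => B.mem_J_of_mvN hW hp hq h2 h1 i j
  · intro h
    refine ⟨Fintype.card ι, p.submatrix (Fintype.equivFin ι).symm (Fintype.equivFin ι).symm,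
      hp.submatrix _, fun i j => h _ _, ?_⟩
    rw [cls_eq_iff]
    exact MvN.submatrix hp _

lemma cls1_mem_VJ {W : Set V0} (hW : Her T W) {p : A} (hp : IsStarProjection p) :
    cls1 p hp ∈ B.VJ W hW ↔ p ∈ B.J W := by
  unfold cls1
  rw [B.cls_mem_VJ hW]
  constructor
  · intro h; exact h 0 0
  · intro h i j; exact h

lemma u_mem_VJ {W : Set V0} (hW : Her T W) (n : ℕ) {v : V0} (hv : v ∈ W) :
    B.u n v ∈ B.VJ W hW := by
  unfold u
  rw [B.cls1_mem_VJ hW]
  exact B.e_mem_J n hv _ _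

/-- all minimal projections of the vertex `v` at level `n` have the class `u n v` -/
lemma cls1_e (n : ℕ) (v : V0) (μ : B.P n v) : cls1 (B.e n v μ μ) (B.e_proj n v μ) = B.u n v := by
  unfold u cls1
  rw [cls_eq_iff]
  set ν : B.P n v := Classical.arbitrary _
  refine ⟨Matrix.of fun _ _ => B.e n v ν μ, ?_, ?_⟩
  · ext i j
    rw [Matrix.mul_apply]
    simp only [Matrix.conjTranspose_apply, Matrix.of_apply, Finset.univ_unique, Finset.sum_const,
      Finset.card_singleton, one_smul]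
    rw [B.e_star, B.e_mul, if_pos rfl]
  · ext i j
    rw [Matrix.mul_apply]
    simp only [Matrix.conjTranspose_apply, Matrix.of_apply, Finset.univ_unique, Finset.sum_const,
      Finset.card_singleton, one_smul]
    rw [B.e_star, B.e_mul, if_pos rfl]

lemma map_cls1 {A' : Type*} [CStarAlgebra A'] (φ : A →⋆ₐ[ℂ] A') {p : A} (hp : IsStarProjection p)
    (hp' : IsStarProjection (φ p)) : Vmap φ (cls1 p hp) = cls1 (φ p) hp' := by
  unfold cls1
  rw [Vmap_cls, cls_eq_iff]
  have : (Matrix.of fun (_ _ : Fin 1) => p).map φ = Matrix.of fun (_ _ : Fin 1) => φ p := by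
    ext i j; rfl
  rw [this]
  exact MvN.refl (isPj_of1 hp')

/-- invariance of the ideals under star homomorphisms -/
lemma map_mem_J {W : Set V0} (hW : Her T W) (φ : A →⋆ₐ[ℂ] A)
    (hφ : ∀ n, ∀ v ∈ W, Vmap φ (B.u n v) ∈ B.VJ W hW) {x : A} (hx : x ∈ B.J W) :
    φ x ∈ B.J W := by
  have hcont : Continuous φ := by
    refine (LipschitzWith.of_dist_le_mul (K := 1) fun a b => ?_).continuous
    rw [dist_eq_norm, dist_eq_norm, NNReal.coe_one, one_mul, ← map_sub]
    exact NonUnitalStarAlgHom.norm_apply_le φ (a - b)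
  have hx' : x ∈ closure {x | ∃ n, x ∈ B.Lv n W} := by rw [← B.coe_J hW]; exact hx
  have hcl : closure (B.J W : Set A) = B.J W := (B.J_isClosed W).closure_eq
  have : φ x ∈ closure (B.J W : Set A) := by
    refine map_mem_closure hcont hx' ?_
    rintro a ⟨n, ha⟩
    unfold Lv at ha
    induction ha using Submodule.span_induction with
    | mem x h =>
      obtain ⟨v, hv, μ, ν, rfl⟩ := h
      have h1 : φ (B.e n v μ μ) ∈ B.J W := by
        have hp' : IsStarProjection (φ (B.e n v μ μ)) := (B.e_proj n v μ).map φ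
        rw [← B.cls1_mem_VJ hW hp', ← map_cls1 φ (B.e_proj n v μ), B.cls1_e]
        exact hφ n v hv
      have h2 : B.e n v μ ν = B.e n v μ μ * B.e n v μ ν := by
        rw [B.e_mul, if_pos rfl]
      rw [h2, map_mul]
      exact B.J_mul_right hW _ h1
    | zero => rw [map_zero]; exact Submodule.zero_mem _
    | add a b _ _ ha hb => rw [map_add]; exact Submodule.add_mem _ ha hb
    | smul c a _ ha => rw [map_smul]; exact Submodule.smul_mem _ _ ha
  rwa [hcl] at this

/-- version with the matrix `S` -/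
lemma map_mem_J' {W : Set V0} (hW : Her T W) (S : V0 → V0 → ℕ) (hS : Her S W) (φ : A →⋆ₐ[ℂ] A)
    (hφ : ∀ n v, Vmap φ (B.u n v) = ∑ w, S v w • B.u (n + 1) w) {x : A} (hx : x ∈ B.J W) :
    φ x ∈ B.J W := by
  refine B.map_mem_J hW φ (fun n v hv => ?_) hx
  rw [hφ]
  refine AddSubmonoid.sum_mem _ fun w _ => ?_
  by_cases h : S v w = 0
  · rw [h, zero_smul]; exact AddSubmonoid.zero_mem _
  · exact AddSubmonoid.nsmul_mem _ (B.u_mem_VJ hW (n + 1) (hS v hv w (Nat.pos_of_ne_zero h))) _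

/-- equality for involutive `φ` -/
lemma map_mem_J_iff {W : Set V0} (hW : Her T W) (S : V0 → V0 → ℕ) (hS : Her S W) (φ : A →⋆ₐ[ℂ] A)
    (hφ : ∀ n v, Vmap φ (B.u n v) = ∑ w, S v w • B.u (n + 1) w) (h2 : ∀ a, φ (φ a) = a) {x : A} :
    φ x ∈ B.J W ↔ x ∈ B.J W := by
  refine ⟨fun h => ?_, fun h => B.map_mem_J' hW S hS φ hφ h⟩
  rw [← h2 x]
  exact B.map_mem_J' hW S hS φ hφ h

/-! ### minimal projections and ideals -/

/-- for `m ≥ n` a minimal projection of the vertex `v` at level `n` dominates one at level `m`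
(if there is an edge from `v` to `v`) -/
lemma exists_sub (hT : ∀ v, 0 < T v v) (n m : ℕ) (hnm : n ≤ m) (v : V0) (μ : B.P n v) :
    ∃ μ' : B.P m v, B.e n v μ μ * B.e m v μ' μ' = B.e m v μ' μ' := by
  induction m, hnm using Nat.le_induction with
  | base => exact ⟨μ, by rw [B.e_mul, if_pos rfl]⟩
  | succ m _ ih =>
    obtain ⟨μ', h⟩ := ih
    refine ⟨B.ext m v ⟨v, μ', ⟨0, hT v⟩⟩, ?_⟩
    set ρ := B.ext m v ⟨v, μ', ⟨0, hT v⟩⟩ with hρ
    have h1 : B.e m v μ' μ' * B.e (m + 1) v ρ ρ = B.e (m + 1) v ρ ρ := by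
      rw [B.e_succ m v μ' μ', Finset.sum_mul, Finset.sum_eq_single v]
      · rw [Finset.sum_mul, Finset.sum_eq_single (⟨0, hT v⟩ : Fin (T v v))]
        · rw [B.e_mul, if_pos rfl]
        · intro k _ hk
          rw [B.e_mul, if_neg]
          intro h'
          apply hk
          have := (B.ext m v).injective h'
          obtain ⟨_, h3⟩ := Sigma.mk.inj_iff.1 this
          exact congrArg Prod.snd (eq_of_heq h3)
        · intro h; exact absurd (Finset.mem_univ _) h
      · intro w _ hw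
        rw [Finset.sum_mul]
        exact Finset.sum_eq_zero fun k _ => B.e_mul_ne (m + 1) w v _ _ _ _ hw
      · intro h; exact absurd (Finset.mem_univ _) h
    calc B.e n v μ μ * B.e (m + 1) v ρ ρ = B.e n v μ μ * (B.e m v μ' μ' * B.e (m + 1) v ρ ρ) := by
          rw [h1]
      _ = B.e (m + 1) v ρ ρ := by rw [← mul_assoc, h, h1]

lemma e_mul_Lv_eq_zero (n : ℕ) {W : Set V0} {v : V0} (hv : v ∉ W) (μ ν : B.P n v) {y : A}
    (hy : y ∈ B.Lv n W) : B.e n v μ ν * y = 0 := by
  unfold Lv at hy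
  induction hy using Submodule.span_induction with
  | mem x h =>
    obtain ⟨w, hw, μ', ν', rfl⟩ := h
    exact B.e_mul_ne n v w _ _ _ _ (fun h => hv (h ▸ hw))
  | zero => rw [mul_zero]
  | add a b _ _ ha hb => rw [mul_add, ha, hb, add_zero]
  | smul c a _ ha => rw [mul_smul_comm, ha, smul_zero]

/-- distance from a minimal projection outside the ideal -/
lemma one_le_norm_sub (hT : ∀ v, 0 < T v v) {W : Set V0} (hW : Her T W) (n : ℕ) {v : V0}
    (hv : v ∉ W) (μ : B.P n v) {y : A} (hy : y ∈ B.J W) : 1 ≤ ‖B.e n v μ μ - y‖ := by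
  have key : ∀ (m : ℕ) (hm : n ≤ m) (z : A), z ∈ B.Lv m W → 1 ≤ ‖B.e n v μ μ - z‖ := by
    intro m hm z hz
    obtain ⟨μ', h⟩ := B.exists_sub hT n m hm v μ
    have hq := B.e_proj m v μ'
    set q := B.e m v μ' μ' with hqdef
    have h1 : q * (B.e n v μ μ - z) * q = q := by
      have hz0 : q * z = 0 := B.e_mul_Lv_eq_zero m hv μ' μ' hz
      rw [mul_sub, hz0, sub_zero, mul_assoc, h, hq.isIdempotentElem.eq]
    have hq1 : ‖q‖ ≤ 1 := norm_le_one_of_proj hq
    have hq0 : 0 < ‖q‖ := norm_pos_iff.2 (B.e_ne m v μ')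
    have h2 : ‖q‖ ≤ ‖q‖ * ‖B.e n v μ μ - z‖ := by
      calc ‖q‖ = ‖q * (B.e n v μ μ - z) * q‖ := by rw [h1]
        _ ≤ ‖q * (B.e n v μ μ - z)‖ * ‖q‖ := norm_mul_le _ _
        _ ≤ ‖q * (B.e n v μ μ - z)‖ * 1 := by gcongr
        _ ≤ ‖q‖ * ‖B.e n v μ μ - z‖ := by rw [mul_one]; exact norm_mul_le _ _
    by_contra hlt
    push Not at hlt
    nlinarith
  by_contra hlt
  push Not at hlt
  obtain ⟨m, hm, z, hz, hyz⟩ := B.J_approx hW hy (ε := 1 - ‖B.e n v μ μ - y‖) (by linarith) n
  have h1 := key m hm z hz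
  have h2 : ‖B.e n v μ μ - z‖ ≤ ‖B.e n v μ μ - y‖ + ‖y - z‖ := by
    calc ‖B.e n v μ μ - z‖ = ‖(B.e n v μ μ - y) + (y - z)‖ := by congr 1; abel
      _ ≤ _ := norm_add_le _ _
  linarith

lemma e_mem_J_iff (hT : ∀ v, 0 < T v v) {W : Set V0} (hW : Her T W) (n : ℕ) (v : V0)
    (μ : B.P n v) : B.e n v μ μ ∈ B.J W ↔ v ∈ W := by
  constructor
  · intro h
    by_contra hv
    have := B.one_le_norm_sub hT hW n hv μ h
    rw [sub_self, norm_zero] at this
    linarith
  · intro h; exact B.e_mem_J n h μ μ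

/-- If `x` has exactly one edge to itself and all its other successors are in `W`, then modulo
`J W` a minimal projection of `x` at level `n` is equal to one at level `m ≥ n`. -/
lemma exists_eq_mod {W : Set V0} (x : V0) (hx1 : T x x = 1)
    (hx2 : ∀ w, w ≠ x → 0 < T x w → w ∈ W) (n m : ℕ) (hnm : n ≤ m) (μ : B.P n x) :
    ∃ μ' : B.P m x, B.e n x μ μ - B.e m x μ' μ' ∈ B.J W := by
  induction m, hnm using Nat.le_induction with
  | base => exact ⟨μ, by rw [sub_self]; exact Submodule.zero_mem _⟩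
  | succ m _ ih =>
    obtain ⟨μ', h⟩ := ih
    refine ⟨B.ext m x ⟨x, μ', ⟨0, by rw [hx1]; exact Nat.one_pos⟩⟩, ?_⟩
    set ρ := B.ext m x ⟨x, μ', ⟨0, by rw [hx1]; exact Nat.one_pos⟩⟩ with hρ
    have h1 : B.e m x μ' μ' - B.e (m + 1) x ρ ρ ∈ B.J W := by
      rw [B.e_succ m x μ' μ', ← Finset.add_sum_erase _ _ (Finset.mem_univ x)]
      have h2 : ∑ k : Fin (T x x), B.e (m + 1) x (B.ext m x ⟨x, μ', k⟩) (B.ext m x ⟨x, μ', k⟩)
          = B.e (m + 1) x ρ ρ := by
        rw [Finset.sum_eq_single (⟨0, by rw [hx1]; exact Nat.one_pos⟩ : Fin (T x x))]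
        · intro k _ hk
          exfalso
          apply hk
          apply Fin.ext
          have := k.2
          change k.val = 0
          omega
        · intro h; exact absurd (Finset.mem_univ _) h
      rw [h2, add_sub_cancel_left]
      refine Submodule.sum_mem _ fun w hw => Submodule.sum_mem _ fun k _ => ?_
      have hwx := (Finset.mem_erase.1 hw).1
      refine B.e_mem_J (m + 1) (hx2 w hwx ?_) _ _
      have := k.2
      omega
    have e : B.e n x μ μ - B.e (m + 1) x ρ ρ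
        = (B.e n x μ μ - B.e m x μ' μ') + (B.e m x μ' μ' - B.e (m + 1) x ρ ρ) := by abel
    rw [e]
    exact Submodule.add_mem _ h h1

/-- compression by a minimal projection -/
lemma compress {W : Set V0} (hW : Her T W) (x : V0) (hx1 : T x x = 1)
    (hx2 : ∀ w, w ≠ x → 0 < T x w → w ∈ W) (n : ℕ) (μ : B.P n x) (a : A) :
    ∃ c : ℂ, B.e n x μ μ * a * B.e n x μ μ - c • B.e n x μ μ ∈ B.J W := by
  set p := B.e n x μ μ with hp
  have : IsClosed (B.J W : Set A) := B.J_isClosed W
  -- the set of all such `a` is closed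
  have hcl : IsClosed {a : A | ∃ c : ℂ, p * a * p - c • p ∈ B.J W} := by
    have h1 : {a : A | ∃ c : ℂ, p * a * p - c • p ∈ B.J W}
        = (fun a : A => (Submodule.Quotient.mk (p * a * p) : A ⧸ B.J W)) ⁻¹'
          (Submodule.span ℂ {(Submodule.Quotient.mk p : A ⧸ B.J W)} : Set (A ⧸ B.J W)) := by
      ext a
      simp only [Set.mem_ofPred_eq, Set.mem_preimage, SetLike.mem_coe,
        Submodule.mem_span_singleton]
      refine exists_congr fun c => ?_
      rw [← Submodule.Quotient.mk_smul, eq_comm, Submodule.Quotient.eq]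
    rw [h1]
    refine IsClosed.preimage ?_ (Submodule.closed_of_finiteDimensional _)
    have h2 : Continuous (fun a : A => p * a * p) := by fun_prop
    exact (continuous_quot_mk : Continuous (Submodule.Quotient.mk : A → A ⧸ B.J W)).comp h2
  have hd : a ∈ closure {x : A | ∃ n, x ∈ B.Lv n Set.univ} := by
    rw [← B.coe_J her_univ]; exact B.J_univ a
  refine (hcl.closure_subset_iff.2 ?_) hd
  rintro y ⟨m, hy⟩
  -- move to a level `≥ n`
  have hy' : y ∈ B.Lv (max m n) Set.univ := B.Lv_mono her_univ (le_max_left m n) hy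
  clear hy
  obtain ⟨μ', hμ'⟩ := B.exists_eq_mod x hx1 hx2 n (max m n) (le_max_right m n) μ
  set q := B.e (max m n) x μ' μ' with hq
  have hpq : ∀ z : A, p * z * p - q * z * q ∈ B.J W := by
    intro z
    have e : p * z * p - q * z * q = (p - q) * (z * p) + (q * z) * (p - q) := by noncomm_ring
    rw [e]
    exact Submodule.add_mem _ (B.J_mul_right hW _ hμ') (B.J_mul_left hW _ hμ')
  have hmain : ∃ c : ℂ, q * y * q = c • q := by
    unfold Lv at hy'
    induction hy' using Submodule.span_induction with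
    | mem z h =>
      obtain ⟨v, -, α, β, rfl⟩ := h
      by_cases hvx : x = v
      · subst hvx
        rw [hq, B.e_mul]
        by_cases h1 : μ' = α
        · rw [if_pos h1, B.e_mul]
          by_cases h2 : β = μ'
          · exact ⟨1, by rw [if_pos h2, one_smul]⟩
          · exact ⟨0, by rw [if_neg h2, zero_smul]⟩
        · exact ⟨0, by rw [if_neg h1, zero_mul, zero_smul]⟩
      · exact ⟨0, by rw [hq, B.e_mul_ne _ _ _ _ _ _ _ hvx, zero_mul, zero_smul]⟩
    | zero => exact ⟨0, by rw [mul_zero, zero_mul, zero_smul]⟩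
    | add a b _ _ ha hb =>
      obtain ⟨c, hc⟩ := ha
      obtain ⟨c', hc'⟩ := hb
      exact ⟨c + c', by rw [mul_add, add_mul, hc, hc', add_smul]⟩
    | smul c a _ ha =>
      obtain ⟨c', hc'⟩ := ha
      exact ⟨c * c', by rw [mul_smul_comm, smul_mul_assoc, hc', smul_smul]⟩
  obtain ⟨c, hc⟩ := hmain
  refine ⟨c, ?_⟩
  have e : p * y * p - c • p = (p * y * p - q * y * q) - c • (p - q) := by
    rw [hc, smul_sub]; abel
  rw [e]
  exact Submodule.sub_mem _ (hpq y) (Submodule.smul_mem _ _ hμ')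

/-- a sink: `e A e = ℂ e` -/
lemma compress_sink (x : V0) (hx1 : T x x = 1) (hx2 : ∀ w, w ≠ x → T x w = 0) (n : ℕ)
    (μ : B.P n x) (a : A) : ∃ c : ℂ, B.e n x μ μ * a * B.e n x μ μ = c • B.e n x μ μ := by
  obtain ⟨c, hc⟩ := B.compress her_empty x hx1 (fun w hw h => by rw [hx2 w hw] at h; omega) n μ a
  rw [B.J_empty, Submodule.mem_bot, sub_eq_zero] at hc
  exact ⟨c, hc⟩

end Brat

end Helper19.BL
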