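import Mathlib

/-! # Cuntz families in `B(ℓ²(ℕ))` -/

set_option autoImplicit false

open scoped InnerProductSpace ENNReal

namespace Helper59.BL

/-- the Hilbert space `ℓ²(ℕ)` -/
abbrev L2 : Type := lp (fun _ : ℕ => ℂ) 2

lemma memC (g : ℕ → ℕ) (hg : Function.Injective g) (ξ : L2) :
    Memℓp (fun n => (ξ : ℕ → ℂ) (g n)) 2 := by
  have h := lp.memℓp ξ
  rw [memℓp_gen_iff (by norm_num)] at h ⊢
  exact h.comp_injective hg

/-- composition with `g` as a linear map -/
noncomputable def compLin (g : ℕ → ℕ) (hg : Function.Injective g) : L2 →ₗ[ℂ] L2 where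
  toFun ξ := ⟨fun n => (ξ : ℕ → ℂ) (g n), memC g hg ξ⟩
  map_add' ξ η := by
    apply Subtype.ext
    funext n
    rfl
  map_smul' c ξ := by
    apply Subtype.ext
    funext n
    rfl

lemma compLin_apply (g : ℕ → ℕ) (hg : Function.Injective g) (ξ : L2) (n : ℕ) :
    (compLin g hg ξ : ℕ → ℂ) n = (ξ : ℕ → ℂ) (g n) := rfl

lemma compLin_norm (g : ℕ → ℕ) (hg : Function.Injective g) (ξ : L2) :
    ‖compLin g hg ξ‖ ≤ 1 * ‖ξ‖ := by
  rw [one_mul]
  have h2 : (0 : ℝ) < (2 : ℝ≥0∞).toReal := by norm_num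
  have e1 := lp.norm_rpow_eq_tsum h2 (compLin g hg ξ)
  have e2 := lp.norm_rpow_eq_tsum h2 ξ
  have hs : Summable fun n => ‖(ξ : ℕ → ℂ) n‖ ^ (2 : ℝ≥0∞).toReal := by
    have h := lp.memℓp ξ
    rwa [memℓp_gen_iff h2] at h
  have h3 : ‖compLin g hg ξ‖ ^ (2 : ℝ≥0∞).toReal ≤ ‖ξ‖ ^ (2 : ℝ≥0∞).toReal := by
    rw [e1, e2]
    have := hs.comp_injective hg
    exact tsum_comp_le_tsum_of_inj hs (fun n => by positivity) hg
  exact (Real.rpow_le_rpow_iff (norm_nonneg _) (norm_nonneg _) h2).1 h3

/-- composition with `g` as an operator -/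
noncomputable def C (g : ℕ → ℕ) (hg : Function.Injective g) : L2 →L[ℂ] L2 :=
  LinearMap.mkContinuous (compLin g hg) 1 (compLin_norm g hg)

lemma C_apply (g : ℕ → ℕ) (hg : Function.Injective g) (ξ : L2) (n : ℕ) :
    (C g hg ξ : ℕ → ℂ) n = (ξ : ℕ → ℂ) (g n) := rfl

/-- basis vectors -/
noncomputable def δ (n : ℕ) : L2 := lp.single 2 n (1 : ℂ)

lemma δ_apply (n m : ℕ) : (δ n : ℕ → ℂ) m = if m = n then 1 else 0 := by
  unfold δ
  rw [lp.single_apply, Pi.single_apply]

lemma inner_δ (n : ℕ) (ξ : L2) : ⟪δ n, ξ⟫_ℂ = (ξ : ℕ → ℂ) n := by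
  unfold δ
  rw [lp.inner_single_left]
  simp

lemma C_star (g h : ℕ → ℕ) (hg : Function.Injective g) (hh : Function.Injective h) (ξ : L2)
    (m : ℕ) : (C g hg (star (C h hh) ξ) : ℕ → ℂ) m = ⟪C h hh (δ (g m)), ξ⟫_ℂ := by
  rw [C_apply, ← inner_δ, ContinuousLinearMap.star_eq_adjoint,
    ContinuousLinearMap.adjoint_inner_right]

lemma C_star_self (g : ℕ → ℕ) (hg : Function.Injective g) : C g hg * star (C g hg) = 1 := by
  apply ContinuousLinearMap.ext
  intro ξ
  apply lp.ext
  funext m
  change (C g hg (star (C g hg) ξ) : ℕ → ℂ) m = _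
  rw [C_star]
  have : C g hg (δ (g m)) = δ m := by
    apply lp.ext
    funext n
    rw [C_apply, δ_apply, δ_apply]
    by_cases h : n = m
    · simp [h]
    · rw [if_neg h, if_neg (fun h' => h (hg h'))]
  rw [this, inner_δ]
  rfl

lemma C_star_ne (g h : ℕ → ℕ) (hg : Function.Injective g) (hh : Function.Injective h)
    (hgh : ∀ n m, g n ≠ h m) : C g hg * star (C h hh) = 0 := by
  apply ContinuousLinearMap.ext
  intro ξ
  apply lp.ext
  funext m
  change (C g hg (star (C h hh) ξ) : ℕ → ℂ) m = _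
  rw [C_star]
  have : C h hh (δ (g m)) = 0 := by
    apply lp.ext
    funext n
    rw [C_apply, δ_apply, if_neg (fun h' => hgh m n h'.symm)]
    rfl
  rw [this, inner_zero_left]
  rfl

lemma inj1 : Function.Injective (fun n : ℕ => 2 * n) := fun a b h => by
  have : 2 * a = 2 * b := h
  omega

lemma inj2 : Function.Injective (fun n : ℕ => 2 * n + 1) := fun a b h => by
  have : 2 * a + 1 = 2 * b + 1 := h
  omega

lemma C_sum : star (C _ inj1) * C _ inj1 + star (C _ inj2) * C _ inj2 = 1 := by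
  apply ContinuousLinearMap.ext
  intro ξ
  apply ext_inner_left ℂ
  intro η
  rw [add_apply, inner_add_right]
  change ⟪η, star (C _ inj1) (C _ inj1 ξ)⟫_ℂ + ⟪η, star (C _ inj2) (C _ inj2 ξ)⟫_ℂ = ⟪η, ξ⟫_ℂ
  rw [ContinuousLinearMap.star_eq_adjoint, ContinuousLinearMap.star_eq_adjoint,
    ContinuousLinearMap.adjoint_inner_right, ContinuousLinearMap.adjoint_inner_right,
    lp.inner_eq_tsum, lp.inner_eq_tsum, lp.inner_eq_tsum]
  have hs := lp.summable_inner (𝕜 := ℂ) η ξ
  have h1 : Summable fun k : ℕ => ⟪(η : ℕ → ℂ) (2 * k), (ξ : ℕ → ℂ) (2 * k)⟫_ℂ :=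
    hs.comp_injective inj1
  have h2 : Summable fun k : ℕ => ⟪(η : ℕ → ℂ) (2 * k + 1), (ξ : ℕ → ℂ) (2 * k + 1)⟫_ℂ :=
    hs.comp_injective inj2
  exact tsum_even_add_odd (f := fun i => ⟪(η : ℕ → ℂ) i, (ξ : ℕ → ℂ) i⟫_ℂ) h1 h2

/-- a Cuntz family indexed by `ι` -/
def IsCuntz {ι : Type} [Fintype ι] [DecidableEq ι] {A : Type} [CStarAlgebra A] (s : ι → A) :
    Prop :=
  (∀ i j, star (s i) * s j = if i = j then 1 else 0) ∧ ∑ i, s i * star (s i) = 1

lemma cuntz_fin (m : ℕ) : ∃ s : Fin (m + 1) → (L2 →L[ℂ] L2), IsCuntz s := by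
  induction m with
  | zero =>
    refine ⟨fun _ => 1, ?_, ?_⟩
    · intro i j
      have : i = j := by
        apply Fin.ext
        have := i.2
        have := j.2
        omega
      rw [if_pos this]
      simp
    · simp
  | succ m ih =>
    obtain ⟨t, ht1, ht2⟩ := ih
    set a := star (C _ inj1)
    set b := star (C _ inj2)
    have haa : star a * a = 1 := by
      change star (star (C _ inj1)) * star (C _ inj1) = 1
      rw [star_star]; exact C_star_self _ inj1
    have hbb : star b * b = 1 := by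
      change star (star (C _ inj2)) * star (C _ inj2) = 1
      rw [star_star]; exact C_star_self _ inj2
    have hab : star a * b = 0 := by
      change star (star (C _ inj1)) * star (C _ inj2) = 0
      rw [star_star]
      exact C_star_ne _ _ inj1 inj2 (fun n m => by
        show 2 * n ≠ 2 * m + 1
        omega)
    have hba : star b * a = 0 := by
      have := congrArg star hab
      rw [star_mul, star_zero, star_star a] at this
      exact this
    have hsum : a * star a + b * star b = 1 := by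
      change star (C _ inj1) * star (star (C _ inj1)) +
        star (C _ inj2) * star (star (C _ inj2)) = 1
      rw [star_star, star_star]; exact C_sum
    refine ⟨Fin.snoc (α := fun _ => (L2 →L[ℂ] L2)) (fun i => a * t i) b, ?_, ?_⟩
    · intro i j
      refine Fin.lastCases ?_ (fun i => ?_) i
      · refine Fin.lastCases ?_ (fun j => ?_) j
        · simp only [Fin.snoc_last, if_true]; exact hbb
        · rw [Fin.snoc_last, Fin.snoc_castSucc, ← mul_assoc, hba, zero_mul,
            if_neg (Fin.castSucc_lt_last j).ne']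
      · refine Fin.lastCases ?_ (fun j => ?_) j
        · rw [Fin.snoc_last, Fin.snoc_castSucc, star_mul, mul_assoc, hab, mul_zero,
            if_neg (Fin.castSucc_lt_last i).ne]
        · rw [Fin.snoc_castSucc, Fin.snoc_castSucc, star_mul]
          have : star (t i) * star a * (a * t j) = star (t i) * (star a * a) * t j := by
            simp only [mul_assoc]
          rw [this, haa, mul_one, ht1 i j]
          simp only [Fin.castSucc_inj]
    · rw [Fin.sum_univ_castSucc]
      simp only [Fin.snoc_castSucc, Fin.snoc_last, star_mul]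
      have : ∀ i, a * t i * (star (t i) * star a) = a * (t i * star (t i)) * star a := by
        intro i; simp only [mul_assoc]
      simp only [this]
      rw [← Finset.sum_mul, ← Finset.mul_sum, ht2, mul_one, hsum]

lemma cuntz_exists (ι : Type) [Fintype ι] [DecidableEq ι] [Nonempty ι] :
    ∃ s : ι → (L2 →L[ℂ] L2), IsCuntz s := by
  obtain ⟨m, hm⟩ : ∃ m, Fintype.card ι = m + 1 :=
    ⟨Fintype.card ι - 1, (Nat.succ_pred_eq_of_pos Fintype.card_pos).symm⟩
  obtain ⟨s, h1, h2⟩ := cuntz_fin m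
  let e : ι ≃ Fin (m + 1) := (Fintype.equivFin ι).trans (finCongr hm)
  refine ⟨fun i => s (e i), ?_, ?_⟩
  · intro i j
    rw [h1]
    simp only [e.injective.eq_iff]
  · rw [e.sum_comp (fun i => s i * star (s i)), h2]

end Helper59.BL
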