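import Pool.Agent.Helper19.BL.Defs
import Pool.Agent.Helper59.BL.Cuntz

/-! # Existence of stationary Bratteli systems -/

set_option autoImplicit false
set_option linter.unusedSectionVars false

namespace Helper19.BL

open Helper59.BL

section

variable {V0 : Type} [Fintype V0] [DecidableEq V0] (T : V0 → V0 → ℕ) (d : V0 → ℕ)

/-- index sets of the matrix units -/
def PT : ℕ → V0 → Type
  | 0, v => Fin (d v)
  | n + 1, w => Σ v, PT n v × Fin (T v w)

instance PT.fin : ∀ n v, Fintype (PT T d n v)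
  | 0, v => inferInstanceAs (Fintype (Fin (d v)))
  | n + 1, w =>
    letI : ∀ v, Fintype (PT T d n v) := PT.fin n
    inferInstanceAs (Fintype (Σ v, PT T d n v × Fin (T v w)))

instance PT.dec : ∀ n v, DecidableEq (PT T d n v)
  | 0, v => inferInstanceAs (DecidableEq (Fin (d v)))
  | n + 1, w =>
    letI : ∀ v, DecidableEq (PT T d n v) := PT.dec n
    inferInstanceAs (DecidableEq (Σ v, PT T d n v × Fin (T v w)))

lemma PT.ne (hT : ∀ v, 0 < T v v) (hd : ∀ v, 0 < d v) : ∀ n v, Nonempty (PT T d n v)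
  | 0, v => ⟨(⟨0, hd v⟩ : Fin (d v))⟩
  | n + 1, w => by
    obtain ⟨p⟩ := PT.ne hT hd n w
    exact ⟨(⟨w, p, ⟨0, hT w⟩⟩ : Σ v, PT T d n v × Fin (T v w))⟩

variable {O : Type} [CStarAlgebra O] (t : (Σ v, Fin (d v)) → O)
  (r : ∀ v : V0, (Σ w, Fin (T v w)) → O)

/-- the isometries of the paths -/
noncomputable def sP : ∀ n v, PT T d n v → O
  | 0, v => fun i => t ⟨v, i⟩
  | n + 1, w => fun x => sP n x.1 x.2.1 * r x.1 ⟨w, x.2.2⟩

lemma sP_succ (n : ℕ) (v w : V0) (p : PT T d n v) (k : Fin (T v w)) :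
    sP T d t r (n + 1) w (⟨v, p, k⟩ : Σ v, PT T d n v × Fin (T v w))
      = sP T d t r n v p * r v ⟨w, k⟩ := rfl

variable (ht : IsCuntz t) (hr : ∀ v, IsCuntz (r v))

include ht hr

lemma sP_eq (n : ℕ) (v : V0) (p q : PT T d n v) :
    star (sP T d t r n v p) * sP T d t r n v q = if p = q then 1 else 0 := by
  have key : ∀ n v w (p : PT T d n v) (q : PT T d n w),
      star (sP T d t r n v p) * sP T d t r n w q
        = if (⟨v, p⟩ : Σ v, PT T d n v) = ⟨w, q⟩ then 1 else 0 := by
    intro n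
    induction n with
    | zero =>
      intro v w p q
      exact ht.1 ⟨v, p⟩ ⟨w, q⟩
    | succ n ih =>
      intro v w p q
      obtain ⟨v', p', k⟩ := p
      obtain ⟨w', q', l⟩ := q
      change star (sP T d t r n v' p' * r v' ⟨v, k⟩) * (sP T d t r n w' q' * r w' ⟨w, l⟩) = _
      have e : star (sP T d t r n v' p' * r v' ⟨v, k⟩) * (sP T d t r n w' q' * r w' ⟨w, l⟩)
          = star (r v' ⟨v, k⟩) * (star (sP T d t r n v' p') * sP T d t r n w' q')
            * r w' ⟨w, l⟩ := by
        rw [star_mul]; simp only [mul_assoc]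
      rw [e, ih]
      by_cases h : (⟨v', p'⟩ : Σ v, PT T d n v) = ⟨w', q'⟩
      · rw [if_pos h, mul_one]
        obtain ⟨rfl, h2⟩ := Sigma.mk.inj_iff.1 h
        obtain rfl := eq_of_heq h2
        rw [(hr v').1]
        by_cases h3 : (⟨v, k⟩ : Σ w, Fin (T v' w)) = ⟨w, l⟩
        · rw [if_pos h3]
          obtain ⟨rfl, h4⟩ := Sigma.mk.inj_iff.1 h3
          obtain rfl := eq_of_heq h4
          rw [if_pos rfl]
        · rw [if_neg h3, if_neg]
          intro h5
          apply h3
          obtain ⟨rfl, h6⟩ := Sigma.mk.inj_iff.1 h5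
          have h7 := eq_of_heq h6
          obtain ⟨_, h8⟩ := Sigma.mk.inj_iff.1 h7
          have h9 := eq_of_heq h8
          obtain rfl : k = l := congrArg Prod.snd h9
          rfl
      · rw [if_neg h, mul_zero, zero_mul, if_neg]
        intro h5
        apply h
        obtain ⟨rfl, h6⟩ := Sigma.mk.inj_iff.1 h5
        have h7 := eq_of_heq h6
        obtain ⟨rfl, h8⟩ := Sigma.mk.inj_iff.1 h7
        have h9 := eq_of_heq h8
        obtain rfl : p' = q' := congrArg Prod.fst h9
        rfl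
  rw [key]
  by_cases h : p = q
  · rw [if_pos h, if_pos (by rw [h])]
  · rw [if_neg h, if_neg]
    intro h'
    exact h (eq_of_heq (Sigma.mk.inj_iff.1 h').2)

lemma sP_ne (n : ℕ) (v w : V0) (hvw : v ≠ w) (p : PT T d n v) (q : PT T d n w) :
    star (sP T d t r n v p) * sP T d t r n w q = 0 := by
  induction n generalizing v w with
  | zero =>
    have := ht.1 ⟨v, p⟩ ⟨w, q⟩
    rw [if_neg] at this
    · exact this
    · intro h
      exact hvw (Sigma.mk.inj_iff.1 h).1
  | succ n ih =>
    obtain ⟨v', p', k⟩ := p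
    obtain ⟨w', q', l⟩ := q
    change star (sP T d t r n v' p' * r v' ⟨v, k⟩) * (sP T d t r n w' q' * r w' ⟨w, l⟩) = _
    have e : star (sP T d t r n v' p' * r v' ⟨v, k⟩) * (sP T d t r n w' q' * r w' ⟨w, l⟩)
        = star (r v' ⟨v, k⟩) * (star (sP T d t r n v' p') * sP T d t r n w' q')
          * r w' ⟨w, l⟩ := by
      rw [star_mul]; simp only [mul_assoc]
    rw [e]
    by_cases h : v' = w'
    · subst h
      rw [sP_eq T d t r ht hr]
      by_cases h2 : p' = q'
      · rw [if_pos h2, mul_one, (hr v').1, if_neg]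
        intro h3
        exact hvw (Sigma.mk.inj_iff.1 h3).1
      · rw [if_neg h2, mul_zero, zero_mul]
    · rw [ih v' w' h, mul_zero, zero_mul]

lemma sP_sum (n : ℕ) : ∑ v, ∑ p, sP T d t r n v p * star (sP T d t r n v p) = 1 := by
  induction n with
  | zero =>
    rw [← ht.2, Fintype.sum_sigma]
    rfl
  | succ n ih =>
    have e1 : ∀ w, ∑ p, sP T d t r (n + 1) w p * star (sP T d t r (n + 1) w p)
        = ∑ v, ∑ p : PT T d n v, ∑ k : Fin (T v w),
          (sP T d t r n v p * r v ⟨w, k⟩) * star (sP T d t r n v p * r v ⟨w, k⟩) := by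
      intro w
      change ∑ x : (Σ v, PT T d n v × Fin (T v w)), _ = _
      rw [Fintype.sum_sigma]
      refine Finset.sum_congr rfl fun v _ => ?_
      rw [Fintype.sum_prod_type]
      rfl
    simp only [e1]
    rw [Finset.sum_comm, ← ih]
    refine Finset.sum_congr rfl fun v _ => ?_
    rw [Finset.sum_comm]
    refine Finset.sum_congr rfl fun p _ => ?_
    have e2 : ∀ w (k : Fin (T v w)), (sP T d t r n v p * r v ⟨w, k⟩) *
        star (sP T d t r n v p * r v ⟨w, k⟩)
        = sP T d t r n v p * (r v ⟨w, k⟩ * star (r v ⟨w, k⟩)) * star (sP T d t r n v p) := by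
      intro w k
      rw [star_mul]; simp only [mul_assoc]
    simp only [e2]
    simp only [← Finset.sum_mul, ← Finset.mul_sum]
    have e3 : ∑ w, ∑ k : Fin (T v w), r v ⟨w, k⟩ * star (r v ⟨w, k⟩) = 1 := by
      rw [← (hr v).2, Fintype.sum_sigma]
    rw [e3, mul_one]

end

section

variable {V0 : Type} [Fintype V0] [DecidableEq V0] (T : V0 → V0 → ℕ) (d : V0 → ℕ)
variable {O : Type} [CStarAlgebra O] (t : (Σ v, Fin (d v)) → O)
  (r : ∀ v : V0, (Σ w, Fin (T v w)) → O)

/-- matrix units in `O` -/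
noncomputable def eP (n : ℕ) (v : V0) (μ ν : PT T d n v) : O := sP T d t r n v μ * star (sP T d t r n v ν)

lemma eP_star (n : ℕ) (v : V0) (μ ν : PT T d n v) :
    star (eP T d t r n v μ ν) = eP T d t r n v ν μ := by
  unfold eP
  rw [star_mul, star_star]

variable (ht : IsCuntz t) (hr : ∀ v, IsCuntz (r v))

include ht hr

lemma eP_mul (n : ℕ) (v : V0) (μ ν ν' l : PT T d n v) :
    eP T d t r n v μ ν * eP T d t r n v ν' l = if ν = ν' then eP T d t r n v μ l else 0 := by
  unfold eP
  have e : sP T d t r n v μ * star (sP T d t r n v ν) * (sP T d t r n v ν' * star (sP T d t r n v l))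
      = sP T d t r n v μ * (star (sP T d t r n v ν) * sP T d t r n v ν') *
        star (sP T d t r n v l) := by simp only [mul_assoc]
  rw [e, sP_eq T d t r ht hr]
  split_ifs <;> simp

lemma eP_mul_ne (n : ℕ) (v w : V0) (μ ν : PT T d n v) (μ' ν' : PT T d n w) (h : v ≠ w) :
    eP T d t r n v μ ν * eP T d t r n w μ' ν' = 0 := by
  unfold eP
  have e : sP T d t r n v μ * star (sP T d t r n v ν) * (sP T d t r n w μ' * star (sP T d t r n w ν'))
      = sP T d t r n v μ * (star (sP T d t r n v ν) * sP T d t r n w μ') *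
        star (sP T d t r n w ν') := by simp only [mul_assoc]
  rw [e, sP_ne T d t r ht hr n v w h, mul_zero, zero_mul]

lemma eP_one (n : ℕ) : ∑ v, ∑ μ, eP T d t r n v μ μ = 1 := sP_sum T d t r ht hr n

lemma eP_ne_zero [Nontrivial O] (n : ℕ) (v : V0) (μ : PT T d n v) : eP T d t r n v μ μ ≠ 0 := by
  intro h
  have h1 := sP_eq T d t r ht hr n v μ μ
  rw [if_pos rfl] at h1
  have h2 : star (sP T d t r n v μ) * eP T d t r n v μ μ * sP T d t r n v μ = 1 := by
    unfold eP
    have e : star (sP T d t r n v μ) * (sP T d t r n v μ * star (sP T d t r n v μ)) *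
        sP T d t r n v μ = (star (sP T d t r n v μ) * sP T d t r n v μ) *
        (star (sP T d t r n v μ) * sP T d t r n v μ) := by simp only [mul_assoc]
    rw [e, h1, mul_one]
  rw [h, mul_zero, zero_mul] at h2
  exact zero_ne_one h2

lemma eP_succ (n : ℕ) (v : V0) (μ ν : PT T d n v) :
    eP T d t r n v μ ν = ∑ w, ∑ k : Fin (T v w),
      eP T d t r (n + 1) w (⟨v, μ, k⟩ : Σ v, PT T d n v × Fin (T v w))
        (⟨v, ν, k⟩ : Σ v, PT T d n v × Fin (T v w)) := by
  unfold eP
  simp only [sP_succ]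
  have e2 : ∀ w (k : Fin (T v w)), (sP T d t r n v μ * r v ⟨w, k⟩) *
      star (sP T d t r n v ν * r v ⟨w, k⟩)
      = sP T d t r n v μ * (r v ⟨w, k⟩ * star (r v ⟨w, k⟩)) * star (sP T d t r n v ν) := by
    intro w k
    rw [star_mul]; simp only [mul_assoc]
  simp only [e2]
  simp only [← Finset.sum_mul, ← Finset.mul_sum]
  have e3 : ∑ w, ∑ k : Fin (T v w), r v ⟨w, k⟩ * star (r v ⟨w, k⟩) = 1 := by
    rw [← (hr v).2, Fintype.sum_sigma]
  rw [e3, mul_one]

end

section

variable {V0 : Type} [Fintype V0] [DecidableEq V0] (T : V0 → V0 → ℕ) (d : V0 → ℕ)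
variable {O : Type} [CStarAlgebra O] (t : (Σ v, Fin (d v)) → O)
  (r : ∀ v : V0, (Σ w, Fin (T v w)) → O)

/-- span of the matrix units of level `n` -/
noncomputable def UP (n : ℕ) : Submodule ℂ O := Submodule.span ℂ {y | ∃ v μ ν, y = eP T d t r n v μ ν}

lemma eP_mem (n : ℕ) (v : V0) (μ ν : PT T d n v) : eP T d t r n v μ ν ∈ UP T d t r n :=
  Submodule.subset_span ⟨v, μ, ν, rfl⟩

variable (ht : IsCuntz t) (hr : ∀ v, IsCuntz (r v))

include ht hr in
lemma UP_mono : Monotone (UP T d t r) := by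
  apply monotone_nat_of_le_succ
  intro n
  unfold UP
  rw [Submodule.span_le]
  rintro y ⟨v, μ, ν, rfl⟩
  rw [eP_succ T d t r ht hr]
  exact Submodule.sum_mem _ fun w _ => Submodule.sum_mem _ fun k _ => eP_mem T d t r (n + 1) w _ _

include ht hr in
lemma UP_mul (n : ℕ) {x y : O} (hx : x ∈ UP T d t r n) (hy : y ∈ UP T d t r n) :
    x * y ∈ UP T d t r n := by
  unfold UP at hx
  induction hx using Submodule.span_induction with
  | mem x h =>
    obtain ⟨v, μ, ν, rfl⟩ := h
    unfold UP at hy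
    induction hy using Submodule.span_induction with
    | mem y h =>
      obtain ⟨w, μ', ν', rfl⟩ := h
      by_cases hvw : v = w
      · subst hvw
        rw [eP_mul T d t r ht hr]
        split_ifs
        · exact eP_mem T d t r n v _ _
        · exact Submodule.zero_mem _
      · rw [eP_mul_ne T d t r ht hr n v w _ _ _ _ hvw]
        exact Submodule.zero_mem _
    | zero => rw [mul_zero]; exact Submodule.zero_mem _
    | add a b _ _ ha hb => rw [mul_add]; exact Submodule.add_mem _ ha hb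
    | smul c a _ ha => rw [mul_smul_comm]; exact Submodule.smul_mem _ _ ha
  | zero => rw [zero_mul]; exact Submodule.zero_mem _
  | add a b _ _ ha hb => rw [add_mul]; exact Submodule.add_mem _ ha hb
  | smul c a _ ha => rw [smul_mul_assoc]; exact Submodule.smul_mem _ _ ha

lemma UP_star (n : ℕ) {x : O} (hx : x ∈ UP T d t r n) : star x ∈ UP T d t r n := by
  unfold UP at hx
  induction hx using Submodule.span_induction with
  | mem x h =>
    obtain ⟨v, μ, ν, rfl⟩ := h
    rw [eP_star]
    exact eP_mem T d t r n v _ _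
  | zero => rw [star_zero]; exact Submodule.zero_mem _
  | add a b _ _ ha hb => rw [star_add]; exact Submodule.add_mem _ ha hb
  | smul c a _ ha => rw [star_smul]; exact Submodule.smul_mem _ _ ha

include ht hr in
lemma UP_one (n : ℕ) : (1 : O) ∈ UP T d t r n := by
  rw [← eP_one T d t r ht hr n]
  exact Submodule.sum_mem _ fun v _ => Submodule.sum_mem _ fun μ _ => eP_mem T d t r n v _ _

/-- the union of the finite levels -/
noncomputable def SP (ht : IsCuntz t) (hr : ∀ v, IsCuntz (r v)) : StarSubalgebra ℂ O where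
  carrier := {x | ∃ n, x ∈ UP T d t r n}
  mul_mem' := by
    rintro x y ⟨n, hn⟩ ⟨m, hm⟩
    exact ⟨max n m, UP_mul T d t r ht hr _ (UP_mono T d t r ht hr (le_max_left n m) hn)
      (UP_mono T d t r ht hr (le_max_right n m) hm)⟩
  add_mem' := by
    rintro x y ⟨n, hn⟩ ⟨m, hm⟩
    exact ⟨max n m, Submodule.add_mem _ (UP_mono T d t r ht hr (le_max_left n m) hn)
      (UP_mono T d t r ht hr (le_max_right n m) hm)⟩
  algebraMap_mem' := by
    intro c
    rw [Algebra.algebraMap_eq_smul_one]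
    exact ⟨0, Submodule.smul_mem _ _ (UP_one T d t r ht hr 0)⟩
  star_mem' := by
    rintro x ⟨n, hn⟩
    exact ⟨n, UP_star T d t r n hn⟩

end

theorem brat_exists {V0 : Type} [Fintype V0] [DecidableEq V0] (T : V0 → V0 → ℕ)
    (hT : ∀ v, 0 < T v v) (d : V0 → ℕ) (hd : ∀ v, 0 < d v) [Nonempty V0] :
    ∃ (A : Type) (_ : CStarAlgebra A) (B : Brat V0 T A), ∀ v, Fintype.card (B.P 0 v) = d v := by
  have : Nonempty (Σ v, Fin (d v)) := ⟨⟨Classical.arbitrary V0, ⟨0, hd _⟩⟩⟩
  have : ∀ v, Nonempty (Σ w, Fin (T v w)) := fun v => ⟨⟨v, ⟨0, hT v⟩⟩⟩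
  obtain ⟨t, ht⟩ := cuntz_exists (Σ v, Fin (d v))
  have hr' : ∀ v : V0, ∃ s : (Σ w, Fin (T v w)) → (L2 →L[ℂ] L2), IsCuntz s :=
    fun v => cuntz_exists _
  choose r hr using hr'
  have : Nontrivial (L2 →L[ℂ] L2) := by
    refine ⟨1, 0, fun h => ?_⟩
    have h1 := congrArg (fun f : L2 →L[ℂ] L2 => (f (δ 0) : ℕ → ℂ) 0) h
    have h2 : ((δ 0 : L2) : ℕ → ℂ) 0 = 0 := h1
    rw [δ_apply, if_pos rfl] at h2
    exact one_ne_zero h2
  let S := SP T d t r ht hr
  let A := S.topologicalClosure
  have : IsClosed (A : Set (L2 →L[ℂ] L2)) := S.isClosed_topologicalClosure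
  let _ : CStarAlgebra A := StarSubalgebra.cstarAlgebra A
  have hSA : ∀ x, x ∈ S → x ∈ A := fun x hx => S.le_topologicalClosure hx
  let e : ∀ n v, PT T d n v → PT T d n v → A := fun n v μ ν =>
    ⟨eP T d t r n v μ ν, hSA _ ⟨n, eP_mem T d t r n v μ ν⟩⟩
  refine ⟨A, inferInstance, ?_⟩
  refine ⟨{ P := PT T d
            fin := PT.fin T d
            dec := PT.dec T d
            ne := PT.ne T d hT hd
            e := e
            e_ne := ?_
            e_mul := ?_
            e_mul_ne := ?_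
            e_star := ?_
            e_one := ?_
            ext := fun n w => Equiv.refl _
            e_succ := ?_
            dense := ?_ }, ?_⟩
  · intro n v μ h
    exact eP_ne_zero T d t r ht hr n v μ (congrArg Subtype.val h)
  · intro n v μ ν ν' l
    apply Subtype.ext
    have := eP_mul T d t r ht hr n v μ ν ν' l
    change eP T d t r n v μ ν * eP T d t r n v ν' l = _
    rw [this]
    split_ifs <;> rfl
  · intro n v w μ ν μ' ν' h
    apply Subtype.ext
    exact eP_mul_ne T d t r ht hr n v w μ ν μ' ν' h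
  · intro n v μ ν
    apply Subtype.ext
    exact eP_star T d t r n v μ ν
  · intro n
    apply Subtype.ext
    have := eP_one T d t r ht hr n
    simp only [AddSubmonoidClass.coe_finsetSum]
    exact this
  · intro n v μ ν
    apply Subtype.ext
    have := eP_succ T d t r ht hr n v μ ν
    simp only [AddSubmonoidClass.coe_finsetSum]
    exact this
  · intro x
    rw [closure_subtype]
    have hx : (x : L2 →L[ℂ] L2) ∈ closure (S : Set (L2 →L[ℂ] L2)) := x.2
    refine closure_mono ?_ hx
    rintro y ⟨n, hy⟩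
    refine ⟨⟨y, hSA y ⟨n, hy⟩⟩, ⟨n, ?_⟩, rfl⟩
    have hmap : (Submodule.span ℂ {y : A | ∃ v μ ν, y = e n v μ ν}).map
        (A.toSubalgebra.toSubmodule.subtype) = UP T d t r n := by
      rw [Submodule.map_span]
      unfold UP
      congr 1
      ext z
      constructor
      · rintro ⟨w, ⟨v, μ, ν, rfl⟩, rfl⟩
        exact ⟨v, μ, ν, rfl⟩
      · rintro ⟨v, μ, ν, rfl⟩
        exact ⟨e n v μ ν, ⟨v, μ, ν, rfl⟩, rfl⟩
    rw [← hmap] at hy
    obtain ⟨z, hz, hzy⟩ := hy
    have : z = ⟨y, hSA y ⟨n, by rw [← hmap]; exact ⟨z, hz, hzy⟩⟩⟩ := Subtype.ext hzy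
    rw [← this]
    exact hz
  · intro v
    exact Fintype.card_fin (d v)

end Helper19.BL
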