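import Pool.Agent.Helper19.BL.GDefs

/-! # Ideals of a Bratteli system: basics -/

set_option autoImplicit false
set_option linter.unusedSectionVars false

open scoped Matrix

namespace Helper19.BL

namespace Brat

/-- hereditary sets of vertices -/
def Her {V0 : Type} (T : V0 → V0 → ℕ) (W : Set V0) : Prop := ∀ v ∈ W, ∀ w, 0 < T v w → w ∈ W

variable {V0 : Type} [Fintype V0] [DecidableEq V0] {T : V0 → V0 → ℕ}
  {A : Type*} [CStarAlgebra A] (B : Brat V0 T A)

/-- the span of the matrix units of level `n` of the vertices in `W` -/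
noncomputable def Lv (n : ℕ) (W : Set V0) : Submodule ℂ A :=
  Submodule.span ℂ {y | ∃ v ∈ W, ∃ μ ν, y = B.e n v μ ν}

/-- the closed ideal of a (hereditary) set of vertices -/
noncomputable def J (W : Set V0) : Submodule ℂ A := (⨆ n, B.Lv n W).topologicalClosure

lemma e_mem_Lv (n : ℕ) {W : Set V0} {v : V0} (hv : v ∈ W) (μ ν : B.P n v) :
    B.e n v μ ν ∈ B.Lv n W := Submodule.subset_span ⟨v, hv, μ, ν, rfl⟩

lemma Lv_mono_set (n : ℕ) {W W' : Set V0} (h : W ⊆ W') : B.Lv n W ≤ B.Lv n W' := by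
  apply Submodule.span_mono
  rintro y ⟨v, hv, μ, ν, rfl⟩
  exact ⟨v, h hv, μ, ν, rfl⟩

lemma Lv_le_succ (n : ℕ) {W : Set V0} (hW : Her T W) : B.Lv n W ≤ B.Lv (n + 1) W := by
  unfold Lv
  rw [Submodule.span_le]
  rintro y ⟨v, hv, μ, ν, rfl⟩
  rw [B.e_succ]
  refine Submodule.sum_mem _ fun w _ => Submodule.sum_mem _ fun k _ => ?_
  exact B.e_mem_Lv (n + 1) (hW v hv w (Nat.pos_of_ne_zero (fun h => by
    have := k.2; omega))) _ _

lemma Lv_mono {W : Set V0} (hW : Her T W) : Monotone (fun n => B.Lv n W) :=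
  monotone_nat_of_le_succ fun n => B.Lv_le_succ n hW

lemma Lv_mul (n : ℕ) {W W' : Set V0} {x y : A} (hx : x ∈ B.Lv n W) (hy : y ∈ B.Lv n W') :
    x * y ∈ B.Lv n (W ∩ W') := by
  unfold Lv at hx
  induction hx using Submodule.span_induction with
  | mem x h =>
    obtain ⟨v, hv, μ, ν, rfl⟩ := h
    unfold Lv at hy
    induction hy using Submodule.span_induction with
    | mem y h =>
      obtain ⟨w, hw, μ', ν', rfl⟩ := h
      by_cases hvw : v = w
      · subst hvw
        rw [B.e_mul]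
        split_ifs
        · exact B.e_mem_Lv n (Set.mem_inter hv hw) _ _
        · exact Submodule.zero_mem _
      · rw [B.e_mul_ne n v w _ _ _ _ hvw]
        exact Submodule.zero_mem _
    | zero => rw [mul_zero]; exact Submodule.zero_mem _
    | add a b _ _ ha hb => rw [mul_add]; exact Submodule.add_mem _ ha hb
    | smul c a _ ha => rw [mul_smul_comm]; exact Submodule.smul_mem _ _ ha
  | zero => rw [zero_mul]; exact Submodule.zero_mem _
  | add a b _ _ ha hb => rw [add_mul]; exact Submodule.add_mem _ ha hb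
  | smul c a _ ha => rw [smul_mul_assoc]; exact Submodule.smul_mem _ _ ha

lemma Lv_star (n : ℕ) {W : Set V0} {x : A} (hx : x ∈ B.Lv n W) : star x ∈ B.Lv n W := by
  unfold Lv at hx
  induction hx using Submodule.span_induction with
  | mem x h =>
    obtain ⟨v, hv, μ, ν, rfl⟩ := h
    rw [B.e_star]
    exact B.e_mem_Lv n hv _ _
  | zero => rw [star_zero]; exact Submodule.zero_mem _
  | add a b _ _ ha hb => rw [star_add]; exact Submodule.add_mem _ ha hb
  | smul c a _ ha => rw [star_smul]; exact Submodule.smul_mem _ _ ha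

lemma Lv_le_J (n : ℕ) (W : Set V0) : B.Lv n W ≤ B.J W :=
  (le_iSup (fun n => B.Lv n W) n).trans (Submodule.le_topologicalClosure _)

lemma e_mem_J (n : ℕ) {W : Set V0} {v : V0} (hv : v ∈ W) (μ ν : B.P n v) :
    B.e n v μ ν ∈ B.J W := B.Lv_le_J n W (B.e_mem_Lv n hv μ ν)

lemma J_isClosed (W : Set V0) : IsClosed (B.J W : Set A) :=
  Submodule.isClosed_topologicalClosure _

lemma J_mono {W W' : Set V0} (h : W ⊆ W') : B.J W ≤ B.J W' :=
  Submodule.topologicalClosure_mono (iSup_mono fun n => B.Lv_mono_set n h)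

lemma coe_iSup_Lv {W : Set V0} (hW : Her T W) :
    ((⨆ n, B.Lv n W : Submodule ℂ A) : Set A) = {x | ∃ n, x ∈ B.Lv n W} := by
  ext x
  rw [SetLike.mem_coe, Submodule.mem_iSup_of_directed _ (B.Lv_mono hW).directed_le]
  rfl

lemma coe_J {W : Set V0} (hW : Her T W) : (B.J W : Set A) = closure {x | ∃ n, x ∈ B.Lv n W} := by
  unfold J
  rw [Submodule.topologicalClosure_coe, B.coe_iSup_Lv hW]

/-- approximation from an arbitrarily high level -/
lemma J_approx {W : Set V0} (hW : Her T W) {x : A} (hx : x ∈ B.J W) {ε : ℝ} (hε : 0 < ε)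
    (N : ℕ) : ∃ n, N ≤ n ∧ ∃ y ∈ B.Lv n W, ‖x - y‖ < ε := by
  have h : x ∈ closure {x | ∃ n, x ∈ B.Lv n W} := by
    rw [← B.coe_J hW]; exact hx
  obtain ⟨y, ⟨n, hy⟩, hxy⟩ := Metric.mem_closure_iff.1 h ε hε
  refine ⟨max N n, le_max_left _ _, y, B.Lv_mono hW (le_max_right N n) hy, ?_⟩
  rwa [← dist_eq_norm]

lemma her_univ : Her T (Set.univ : Set V0) := fun _ _ _ _ => Set.mem_univ _

lemma her_inter {W W' : Set V0} (h : Her T W) (h' : Her T W') : Her T (W ∩ W') :=
  fun v hv w hw => ⟨h v hv.1 w hw, h' v hv.2 w hw⟩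

lemma her_union {W W' : Set V0} (h : Her T W) (h' : Her T W') : Her T (W ∪ W') := by
  rintro v (hv | hv) w hw
  · exact Or.inl (h v hv w hw)
  · exact Or.inr (h' v hv w hw)

lemma her_iUnion {ι : Type*} {W : ι → Set V0} (h : ∀ i, Her T (W i)) : Her T (⋃ i, W i) := by
  intro v hv w hw
  obtain ⟨i, hi⟩ := Set.mem_iUnion.1 hv
  exact Set.mem_iUnion.2 ⟨i, h i v hi w hw⟩

lemma her_empty : Her T (∅ : Set V0) := fun _ h => absurd h (Set.notMem_empty _)

lemma J_univ (x : A) : x ∈ B.J Set.univ := by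
  have h : x ∈ closure {x | ∃ n, x ∈ B.Lv n Set.univ} := by
    refine closure_mono ?_ (B.dense x)
    rintro y ⟨n, hy⟩
    refine ⟨n, ?_⟩
    unfold Lv
    refine Submodule.span_mono ?_ hy
    rintro z ⟨v, μ, ν, rfl⟩
    exact ⟨v, Set.mem_univ _, μ, ν, rfl⟩
  rw [← B.coe_J her_univ] at h
  exact h

lemma J_empty : B.J (∅ : Set V0) = ⊥ := by
  have : ∀ n, B.Lv n (∅ : Set V0) = ⊥ := by
    intro n
    unfold Lv
    rw [Submodule.span_eq_bot]
    rintro y ⟨v, hv, _⟩
    exact absurd hv (Set.notMem_empty _)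
  unfold J
  simp only [this, iSup_bot]
  apply le_antisymm _ bot_le
  apply Submodule.topologicalClosure_minimal _ le_rfl
  have : ((⊥ : Submodule ℂ A) : Set A) = {0} := rfl
  rw [this]
  exact isClosed_singleton

lemma J_mul {W W' : Set V0} (hW : Her T W) (hW' : Her T W') {x y : A} (hx : x ∈ B.J W)
    (hy : y ∈ B.J W') : x * y ∈ B.J (W ∩ W') := by
  have hx' : x ∈ closure {x | ∃ n, x ∈ B.Lv n W} := by rw [← B.coe_J hW]; exact hx
  have hy' : y ∈ closure {x | ∃ n, x ∈ B.Lv n W'} := by rw [← B.coe_J hW']; exact hy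
  have h : x * y ∈ closure {x | ∃ n, x ∈ B.Lv n (W ∩ W')} := by
    refine map_mem_closure₂ (continuous_mul : Continuous fun p : A × A => p.1 * p.2) hx' hy' ?_
    rintro a ⟨n, ha⟩ b ⟨m, hb⟩
    exact ⟨max n m, B.Lv_mul _ (B.Lv_mono hW (le_max_left n m) ha)
      (B.Lv_mono hW' (le_max_right n m) hb)⟩
  rw [← B.coe_J (her_inter hW hW')] at h
  exact h

lemma J_mul_left {W : Set V0} (hW : Her T W) (a : A) {x : A} (hx : x ∈ B.J W) :
    a * x ∈ B.J W := by
  have := B.J_mul her_univ hW (B.J_univ a) hx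
  rwa [Set.univ_inter] at this

lemma J_mul_right {W : Set V0} (hW : Her T W) (a : A) {x : A} (hx : x ∈ B.J W) :
    x * a ∈ B.J W := by
  have := B.J_mul hW her_univ hx (B.J_univ a)
  rwa [Set.inter_univ] at this

lemma J_star {W : Set V0} {x : A} (hx : x ∈ B.J W) : star x ∈ B.J W := by
  have hx' : x ∈ closure ((⨆ n, B.Lv n W : Submodule ℂ A) : Set A) := hx
  refine map_mem_closure continuous_star hx' (t := ((⨆ n, B.Lv n W : Submodule ℂ A) : Set A)) ?_
  intro a ha
  induction ha using Submodule.iSup_induction' with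
  | mem n x hx => exact Submodule.mem_iSup_of_mem n (B.Lv_star n hx)
  | zero => rw [star_zero]; exact Submodule.zero_mem _
  | add a b _ _ ha hb => rw [star_add]; exact Submodule.add_mem _ ha hb

lemma J_isCI {W : Set V0} (hW : Her T W) : IsCI (B.J W) where
  closed := B.J_isClosed W
  mul_left a _ hx := B.J_mul_left hW a hx
  mul_right a _ hx := B.J_mul_right hW a hx
  star_mem hx := B.J_star hx

/-- disjoint hereditary sets: the ideals are orthogonal -/
lemma J_mul_eq_zero {W W' : Set V0} (hW : Her T W) (hW' : Her T W') (h : W ∩ W' = ∅) {x y : A}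
    (hx : x ∈ B.J W) (hy : y ∈ B.J W') : x * y = 0 := by
  have := B.J_mul hW hW' hx hy
  rw [h, B.J_empty] at this
  exact (Submodule.mem_bot ℂ).1 this

/-! ### units of the levels -/

open Classical in
/-- the unit of the part of level `n` of the vertices in `W` -/
noncomputable def un (n : ℕ) (W : Set V0) : A := ∑ v, if v ∈ W then ∑ μ, B.e n v μ μ else 0

lemma un_mem (n : ℕ) (W : Set V0) : B.un n W ∈ B.Lv n W := by
  classical
  unfold un
  refine Submodule.sum_mem _ fun v _ => ?_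
  split_ifs with h
  · exact Submodule.sum_mem _ fun μ _ => B.e_mem_Lv n h _ _
  · exact Submodule.zero_mem _

lemma un_mul_e (n : ℕ) (W : Set V0) (v : V0) (μ ν : B.P n v) [Decidable (v ∈ W)] :
    B.un n W * B.e n v μ ν = if v ∈ W then B.e n v μ ν else 0 := by
  classical
  unfold un
  rw [Finset.sum_mul, Finset.sum_eq_single v]
  · by_cases h : v ∈ W
    · rw [if_pos h, if_pos h, Finset.sum_mul, Finset.sum_eq_single μ]
      · rw [B.e_mul, if_pos rfl]
      · intro b _ hb
        rw [B.e_mul, if_neg hb]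
      · intro h; exact absurd (Finset.mem_univ _) h
    · rw [if_neg h, if_neg h, zero_mul]
  · intro w _ hw
    split_ifs
    · rw [Finset.sum_mul]
      exact Finset.sum_eq_zero fun b _ => B.e_mul_ne n w v _ _ _ _ hw
    · rw [zero_mul]
  · intro h; exact absurd (Finset.mem_univ _) h

lemma un_mul (n : ℕ) {W W' : Set V0} (h : W' ⊆ W) {x : A} (hx : x ∈ B.Lv n W') :
    B.un n W * x = x := by
  classical
  unfold Lv at hx
  induction hx using Submodule.span_induction with
  | mem x h' =>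
    obtain ⟨v, hv, μ, ν, rfl⟩ := h'
    rw [B.un_mul_e, if_pos (h hv)]
  | zero => rw [mul_zero]
  | add a b _ _ ha hb => rw [mul_add, ha, hb]
  | smul c a _ ha => rw [mul_smul_comm, ha]

lemma un_star (n : ℕ) (W : Set V0) : star (B.un n W) = B.un n W := by
  classical
  unfold un
  rw [star_sum]
  refine Finset.sum_congr rfl fun v _ => ?_
  split_ifs
  · rw [star_sum]
    exact Finset.sum_congr rfl fun μ _ => B.e_star n v μ μ
  · exact star_zero _

lemma mul_un (n : ℕ) {W W' : Set V0} (h : W' ⊆ W) {x : A} (hx : x ∈ B.Lv n W') :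
    x * B.un n W = x := by
  have := congrArg star (B.un_mul n h (B.Lv_star n hx))
  rwa [star_mul, star_star, B.un_star] at this

lemma un_idem (n : ℕ) (W : Set V0) : B.un n W * B.un n W = B.un n W :=
  B.un_mul n (le_refl W) (B.un_mem n W)

lemma un_proj (n : ℕ) (W : Set V0) : IsStarProjection (B.un n W) :=
  ⟨B.un_idem n W, B.un_star n W⟩

lemma norm_le_one_of_proj {p : A} (hp : IsStarProjection p) : ‖p‖ ≤ 1 := by
  have h1 : ‖star p * p‖ = ‖p‖ * ‖p‖ := CStarRing.norm_star_mul_self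
  rw [hp.isSelfAdjoint.star_eq, hp.isIdempotentElem.eq] at h1
  by_contra h
  push Not at h
  nlinarith

lemma norm_un_le (n : ℕ) (W : Set V0) : ‖B.un n W‖ ≤ 1 := norm_le_one_of_proj (B.un_proj n W)

/-- the units of the levels form an approximate unit -/
lemma un_approx {W : Set V0} (hW : Her T W) {x : A} (hx : x ∈ B.J W) {ε : ℝ} (hε : 0 < ε) :
    ∃ N, ∀ n, N ≤ n → ‖x - B.un n W * x‖ < ε := by
  obtain ⟨N, _, y, hy, hxy⟩ := B.J_approx hW hx (half_pos hε) 0
  refine ⟨N, fun n hn => ?_⟩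
  have hy' := B.Lv_mono hW hn hy
  have e1 : x - B.un n W * x = (x - y) - B.un n W * (x - y) := by
    rw [mul_sub, B.un_mul n le_rfl hy']
    abel
  rw [e1]
  calc ‖(x - y) - B.un n W * (x - y)‖ ≤ ‖x - y‖ + ‖B.un n W * (x - y)‖ := norm_sub_le _ _
    _ ≤ ‖x - y‖ + ‖B.un n W‖ * ‖x - y‖ := by gcongr; exact norm_mul_le _ _
    _ ≤ ‖x - y‖ + 1 * ‖x - y‖ := by gcongr; exact B.norm_un_le n W
    _ < ε := by linarith

lemma un_tendsto {W : Set V0} (hW : Her T W) {x : A} (hx : x ∈ B.J W) :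
    Filter.Tendsto (fun n => B.un n W * x) Filter.atTop (nhds x) := by
  rw [Metric.tendsto_atTop]
  intro ε hε
  obtain ⟨N, hN⟩ := B.un_approx hW hx hε
  refine ⟨N, fun n hn => ?_⟩
  rw [dist_comm, dist_eq_norm]
  exact hN n hn

lemma J_inf {W W' : Set V0} (hW : Her T W) (hW' : Her T W') : B.J W ⊓ B.J W' = B.J (W ∩ W') := by
  apply le_antisymm
  · rintro x ⟨h1, h2⟩
    have hlim := B.un_tendsto hW h1
    refine (B.J_isClosed (W ∩ W')).mem_of_tendsto hlim (Filter.Eventually.of_forall fun n => ?_)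
    exact B.J_mul hW hW' (B.Lv_le_J n W (B.un_mem n W)) h2
  · exact le_inf (B.J_mono Set.inter_subset_left) (B.J_mono Set.inter_subset_right)

/-- `x* x` in the ideal implies `x` in the ideal -/
lemma J_of_star_mul_self {W : Set V0} (hW : Her T W) {x : A} (h : star x * x ∈ B.J W) :
    x ∈ B.J W := by
  have h1 : ∀ n, x * B.un n W ∈ B.J W :=
    fun n => B.J_mul_left hW x (B.Lv_le_J n W (B.un_mem n W))
  refine (B.J_isClosed W).closure_subset (Metric.mem_closure_iff.2 fun ε hε => ?_)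
  have hε2 : (0 : ℝ) < ε ^ 2 / 2 := by positivity
  obtain ⟨N, hN⟩ := B.un_approx hW h hε2
  refine ⟨x * B.un N W, h1 N, ?_⟩
  rw [dist_eq_norm]
  set u := B.un N W with hu
  have e1 : star (x - x * u) * (x - x * u) = (star x * x - u * (star x * x)) * (1 - u) := by
    rw [star_sub, star_mul, B.un_star]
    noncomm_ring
  have hn := hN N le_rfl
  have h2 : ‖(1 : A) - u‖ ≤ 1 := by
    apply norm_le_one_of_proj
    have hp := B.un_proj N W
    exact hp.one_sub
  have h3 : ‖x - x * u‖ * ‖x - x * u‖ < ε ^ 2 := by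
    rw [← CStarRing.norm_star_mul_self, e1]
    calc ‖(star x * x - u * (star x * x)) * (1 - u)‖
        ≤ ‖star x * x - u * (star x * x)‖ * ‖(1 : A) - u‖ := norm_mul_le _ _
      _ ≤ ‖star x * x - u * (star x * x)‖ * 1 := by gcongr
      _ < ε ^ 2 := by linarith
  nlinarith [norm_nonneg (x - x * u)]

end Brat

end Helper19.BL
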